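import Mathlib

/-!
# There is no universal countable right-orderable group

Negative answer to Q1 of MP_49314d: no countable group `U` contains a copy of every countable
right-orderable group (whether or not `U` itself is right-orderable).

For `S : Set ℕ` let `a_S` be the automorphism of the linearly ordered set `ℤ ×ₗ ℚ` acting on the
fibre over `0` as `q ↦ q + 1`, on the fibre over `s + 1` (`s ∈ S`) as `q ↦ 2 q`, and trivially on all
other fibres, and let `b` be the shift `(i, q) ↦ (i + 1, q)`. The group `G_S` generated by `a_S` and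
`b` is countable and acts faithfully on a countable linearly ordered set, so it is right-orderable.
The elements `a_S` and `b ^ (k + 1) * a_S * b ^ (-k - 1)` commute iff `k ∉ S`. So the images of
`a_S` and `b` under an embedding of `G_S` in `U` determine `S`, and `U × U` is uncountable.
-/

namespace Pool.Agent.Results.MP_49314d_al.NoUniversal

/-- A group is right-orderable if it has a total order `≤` with `x ≤ y → x * z ≤ y * z`. -/
def RightOrderable (G : Type) [Group G] : Prop :=
  ∃ r : LinearOrder G, ∀ x y z : G, r.le x y → r.le (x * z) (y * z)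

/-- Groups of automorphisms of a countable linearly ordered set are right-orderable. -/
theorem rightOrderable_of_subgroup {L : Type} [LinearOrder L] [Countable L] [Nonempty L]
    (G : Subgroup (L ≃o L)) : RightOrderable G := by
  obtain ⟨e, he⟩ := exists_surjective_nat L
  let ψ : G → Lex (ℕ → L) := fun g => toLex fun n => (g⁻¹ : L ≃o L) (e n)
  have hψ : Function.Injective ψ := by
    intro g h hgh
    have h1 : ((g : L ≃o L))⁻¹ = ((h : L ≃o L))⁻¹ := by
      ext x
      obtain ⟨n, rfl⟩ := he x
      exact congrFun hgh n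
    exact Subtype.ext (inv_injective h1)
  refine ⟨LinearOrder.lift' ψ hψ, fun x y z hxy => ?_⟩
  change ψ x ≤ ψ y at hxy
  change ψ (x * z) ≤ ψ (y * z)
  rcases hxy.lt_or_eq with hlt | heq
  · refine le_of_lt ?_
    obtain ⟨i, hi1, hi2⟩ := hlt
    refine ⟨i, fun j hj => ?_, ?_⟩
    · have := hi1 j hj
      change ((x * z : G)⁻¹ : L ≃o L) (e j) = ((y * z : G)⁻¹ : L ≃o L) (e j)
      change ((x : L ≃o L))⁻¹ (e j) = ((y : L ≃o L))⁻¹ (e j) at this
      simp only [Subgroup.coe_mul, mul_inv_rev, RelIso.mul_apply, this]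
    · change ((x : L ≃o L))⁻¹ (e i) < ((y : L ≃o L))⁻¹ (e i) at hi2
      change ((x * z : G)⁻¹ : L ≃o L) (e i) < ((y * z : G)⁻¹ : L ≃o L) (e i)
      simp only [Subgroup.coe_mul, mul_inv_rev, RelIso.mul_apply]
      exact ((z : L ≃o L)⁻¹).strictMono hi2
  · have := hψ heq
    rw [this]

/-- The linearly ordered set on which the groups act. -/
abbrev L : Type := ℤ ×ₗ ℚ

instance : Countable L := inferInstanceAs (Countable (ℤ × ℚ))

/-- `q ↦ q + 1`. -/
def f : ℚ ≃o ℚ := OrderIso.addRight 1

/-- `q ↦ 2 q`. -/
def g : ℚ ≃o ℚ := OrderIso.mulLeft₀ 2 (by norm_num)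

/-- The fibrewise automorphism given by a family of automorphisms of `ℚ`. -/
def fib (F : ℤ → (ℚ ≃o ℚ)) : L ≃o L where
  toFun x := toLex ((ofLex x).1, F (ofLex x).1 (ofLex x).2)
  invFun x := toLex ((ofLex x).1, (F (ofLex x).1).symm (ofLex x).2)
  left_inv x := by simp
  right_inv x := by simp
  map_rel_iff' := by
    intro x y
    rw [Prod.Lex.le_iff, Prod.Lex.le_iff]
    simp only [Equiv.coe_fn_mk, ofLex_toLex]
    constructor
    · rintro (h | ⟨h1, h2⟩)
      · exact Or.inl h
      · refine Or.inr ⟨h1, ?_⟩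
        rw [h1] at h2
        exact (F (ofLex y).1).le_iff_le.1 h2
    · rintro (h | ⟨h1, h2⟩)
      · exact Or.inl h
      · refine Or.inr ⟨h1, ?_⟩
        rw [h1]
        exact (F (ofLex y).1).le_iff_le.2 h2

/-- The shift of the base. -/
def b : L ≃o L where
  toFun x := toLex ((ofLex x).1 + 1, (ofLex x).2)
  invFun x := toLex ((ofLex x).1 - 1, (ofLex x).2)
  left_inv x := by simp
  right_inv x := by simp
  map_rel_iff' := by
    intro x y
    rw [Prod.Lex.le_iff, Prod.Lex.le_iff]
    simp

open Classical in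
/-- The family of fibre automorphisms of `a_S`. -/
noncomputable def fam (S : Set ℕ) (i : ℤ) : ℚ ≃o ℚ :=
  if i = 0 then f else if ∃ s ∈ S, i = s + 1 then g else 1

/-- The first generator. -/
noncomputable def a (S : Set ℕ) : L ≃o L := fib (fam S)

/-- The group `G_S`. -/
noncomputable def GS (S : Set ℕ) : Subgroup (L ≃o L) := Subgroup.closure {a S, b}

theorem b_pow (n : ℕ) (x : L) : (b ^ n) x = toLex ((ofLex x).1 + n, (ofLex x).2) := by
  induction n with
  | zero => simp
  | succ n ih =>
    rw [pow_succ', RelIso.mul_apply, ih]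
    change toLex (((ofLex x).1 + (n : ℤ)) + 1, (ofLex x).2) = _
    push_cast
    rw [add_assoc]

theorem b_pow_inv (n : ℕ) (x : L) : (b ^ n)⁻¹ x = toLex ((ofLex x).1 - n, (ofLex x).2) := by
  have h : (b ^ n) (toLex ((ofLex x).1 - n, (ofLex x).2)) = x := by
    rw [b_pow]
    simp
  rw [← h]
  change ((b ^ n)⁻¹ * b ^ n) _ = _
  rw [inv_mul_cancel]
  rw [h]
  rfl

theorem conj_apply (S : Set ℕ) (n : ℕ) (x : L) :
    (b ^ n * a S * (b ^ n)⁻¹) x = toLex ((ofLex x).1, fam S ((ofLex x).1 - n) (ofLex x).2) := by
  rw [RelIso.mul_apply, RelIso.mul_apply, b_pow_inv, b_pow]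
  change toLex (((ofLex x).1 - n) + n, fam S ((ofLex x).1 - n) (ofLex x).2) = _
  rw [sub_add_cancel]

theorem a_apply (S : Set ℕ) (x : L) :
    (a S) x = toLex ((ofLex x).1, fam S (ofLex x).1 (ofLex x).2) := rfl

theorem fg_ne : f * g ≠ g * f := by
  intro h
  have := congrArg (fun e : ℚ ≃o ℚ => e 0) h
  simp [f, g, RelIso.mul_apply] at this

theorem commute_iff (S : Set ℕ) (k : ℕ) :
    a S * (b ^ (k + 1) * a S * (b ^ (k + 1))⁻¹) = (b ^ (k + 1) * a S * (b ^ (k + 1))⁻¹) * a S ↔
      k ∉ S := by
  have key : a S * (b ^ (k + 1) * a S * (b ^ (k + 1))⁻¹) =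
      (b ^ (k + 1) * a S * (b ^ (k + 1))⁻¹) * a S ↔
      ∀ i : ℤ, fam S i * fam S (i - (k + 1 : ℕ)) = fam S (i - (k + 1 : ℕ)) * fam S i := by
    constructor
    · intro h i
      ext q
      have := congrArg (fun e : L ≃o L => (ofLex (e (toLex (i, q)))).2) h
      simp only [RelIso.mul_apply (r := (· ≤ · : L → L → Prop)) (a S)
        (b ^ (k + 1) * a S * (b ^ (k + 1))⁻¹), RelIso.mul_apply (r := (· ≤ · : L → L → Prop))
        (b ^ (k + 1) * a S * (b ^ (k + 1))⁻¹) (a S), conj_apply, a_apply, ofLex_toLex] at this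
      exact this
    · intro h
      ext x
      rw [RelIso.mul_apply, RelIso.mul_apply (b ^ (k + 1) * a S * (b ^ (k + 1))⁻¹) (a S),
        conj_apply, a_apply, conj_apply, a_apply]
      simp only [ofLex_toLex]
      have := congrArg (fun e : ℚ ≃o ℚ => e (ofLex x).2) (h (ofLex x).1)
      simp only [RelIso.mul_apply] at this
      rw [this]
  rw [key]
  constructor
  · intro h hk
    have := h (k + 1 : ℕ)
    have h1 : fam S ((k + 1 : ℕ) : ℤ) = g := by
      unfold fam
      rw [if_neg (by push_cast; omega), if_pos ⟨k, hk, by push_cast; ring⟩]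
    have h2 : fam S (((k + 1 : ℕ) : ℤ) - (k + 1 : ℕ)) = f := by
      rw [sub_self]
      unfold fam
      rw [if_pos rfl]
    rw [h1, h2] at this
    exact fg_ne this.symm
  · intro hk i
    by_cases h0 : i = 0
    · subst h0
      have : fam S (0 - ((k + 1 : ℕ) : ℤ)) = 1 := by
        unfold fam
        rw [if_neg (by push_cast; omega), if_neg]
        rintro ⟨s, -, hs⟩
        push_cast at hs
        omega
      rw [this, mul_one, one_mul]
    · by_cases h1 : i = ((k + 1 : ℕ) : ℤ)
      · have : fam S i = 1 := by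
          unfold fam
          rw [if_neg h0, if_neg]
          rintro ⟨s, hs, hs'⟩
          have : s = k := by
            rw [h1] at hs'
            push_cast at hs'
            omega
          exact hk (this ▸ hs)
        rw [this, mul_one, one_mul]
      · -- neither value is `f`, so both are in `{g, 1}`
        have hcase : ∀ j : ℤ, j ≠ 0 → fam S j = g ∨ fam S j = 1 := by
          intro j hj
          unfold fam
          rw [if_neg hj]
          split_ifs
          · exact Or.inl rfl
          · exact Or.inr rfl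
        rcases hcase i h0 with h2 | h2 <;>
          rcases hcase (i - ((k + 1 : ℕ) : ℤ)) (by omega) with h3 | h3 <;> rw [h2, h3] <;> simp

theorem countable_of_fg (G : Type) [Group G] [Group.FG G] : Countable G := by
  obtain ⟨n, _, φ, hφ⟩ := Group.fg_iff_exists_freeGroup_hom_surjective_finite.1
    (inferInstance : Group.FG G)
  haveI : Countable (FreeGroup n) := Quot.mk_surjective.countable
  exact hφ.countable

theorem countable_GS (S : Set ℕ) : Countable (GS S) := by
  haveI : Group.FG (GS S) := by
    rw [Group.fg_iff_subgroup_fg]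
    exact (Subgroup.fg_iff _).2 ⟨{a S, b}, rfl, by simp⟩
  exact countable_of_fg (GS S)

theorem a_mem (S : Set ℕ) : a S ∈ GS S := Subgroup.subset_closure (by simp)

theorem b_mem (S : Set ℕ) : b ∈ GS S := Subgroup.subset_closure (by simp)

/-- No countable group contains a copy of every countable right-orderable group. In particular there
is no universal countable right-orderable group. -/
theorem result : ¬ ∃ (U : Type) (_ : Group U), Countable U ∧
    ∀ (G : Type) (_ : Group G), Countable G → RightOrderable G →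
      ∃ φ : G →* U, Function.Injective φ := by
  rintro ⟨U, _, hU, h⟩
  have h' : ∀ S : Set ℕ, ∃ φ : GS S →* U, Function.Injective φ := fun S =>
    h (GS S) inferInstance (countable_GS S) (rightOrderable_of_subgroup (GS S))
  choose φ hφ using h'
  let Φ : Set ℕ → U × U := fun S => (φ S ⟨a S, a_mem S⟩, φ S ⟨b, b_mem S⟩)
  have key : ∀ (S : Set ℕ) (k : ℕ), (Φ S).1 * ((Φ S).2 ^ (k + 1) * (Φ S).1 * ((Φ S).2 ^ (k + 1))⁻¹)
      = ((Φ S).2 ^ (k + 1) * (Φ S).1 * ((Φ S).2 ^ (k + 1))⁻¹) * (Φ S).1 ↔ k ∉ S := by
    intro S k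
    rw [← commute_iff S k]
    simp only [Φ, ← map_pow, ← map_inv, ← map_mul]
    rw [(hφ S).eq_iff, Subtype.ext_iff]
    rfl
  have hinj : Function.Injective Φ := by
    intro S T hST
    ext k
    rw [← not_iff_not, ← key S k, ← key T k, hST]
  obtain ⟨e, he⟩ := Countable.exists_injective_nat (U × U)
  exact Function.cantor_injective (fun S => e (Φ S)) (he.comp hinj)

end Pool.Agent.Results.MP_49314d_al.NoUniversal
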