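import Mathlib

/-!
# There is no universal countable right-orderable group

For every countable group `U` there is a two-generator group `G` with a total order that is
invariant under left and right multiplication such that `G` does not embed in `U`. In particular no
countable right-orderable group contains a copy of every countable right-orderable group.

For a set `S` of natural numbers let `H S` be the group of triples `(c, f, n)`, where `c` and `n`
are integers and `f` is a Laurent polynomial with integer coefficients, with the product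
`(c, f, n) (c', f', n') = (c + c' + β f (T ^ n f'), f + T ^ n f', n + n')`. Here `β` is the biadditive
form with `β (T ^ i) (T ^ j) = 1` if `j - i` is a positive element of `S + 1`, and `0` otherwise. Then
`x = (0, 1, 0)` and `t = (0, 0, 1)` generate a subgroup in which `x` commutes with
`t ^ (k + 1) x t ^ (- k - 1)` if and only if `k` is not in `S`. So for different sets `S` the pairs
`(x, t)` satisfy different relations, and a countable group has only countably many pairs of elements.
-/

open LaurentPolynomial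

universe u

namespace Pool.Agent.Results.MP_49314d_al.NoUniversalGroup

/-- `r` is a right order of the group `G`: a total order with `x ≤ y → x z ≤ y z`. -/
def IsRightOrder (G : Type u) [Group G] (r : G → G → Prop) : Prop :=
  (∀ x, r x x) ∧ (∀ x y z, r x y → r y z → r x z) ∧ (∀ x y, r x y → r y x → x = y) ∧
    (∀ x y, r x y ∨ r y x) ∧ ∀ x y z, r x y → r (x * z) (y * z)

/-- `G` admits a right order. -/
def RightOrderable (G : Type u) [Group G] : Prop := ∃ r, IsRightOrder G r

/-- `G` admits a total order that is invariant under left and right multiplication. -/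
def Orderable (G : Type u) [Group G] : Prop :=
  ∃ r, IsRightOrder G r ∧ ∀ x y z, r x y → r (z * x) (z * y)

theorem Orderable.rightOrderable {G : Type u} [Group G] (h : Orderable G) : RightOrderable G :=
  let ⟨r, hr, _⟩ := h
  ⟨r, hr⟩

/-- The linear functional `∑ a_n T ^ n ↦ ∑ a_n α_n`. -/
noncomputable def phi (α : ℤ → ℤ) (f : ℤ[T;T⁻¹]) : ℤ := f.coeff.sum fun n a => a * α n

theorem phi_add (α : ℤ → ℤ) (f g : ℤ[T;T⁻¹]) : phi α (f + g) = phi α f + phi α g := by
  unfold phi
  rw [AddMonoidAlgebra.coeff_add]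
  exact Finsupp.sum_add_index' (fun n => by simp) (fun n a b => by ring)

theorem phi_zero (α : ℤ → ℤ) : phi α 0 = 0 := by
  have h := phi_add α 0 0
  rw [add_zero] at h
  omega

theorem phi_neg (α : ℤ → ℤ) (f : ℤ[T;T⁻¹]) : phi α (-f) = - phi α f := by
  have h := phi_add α f (-f)
  rw [add_neg_cancel, phi_zero] at h
  omega

theorem phi_T (α : ℤ → ℤ) (n : ℤ) : phi α (T n) = α n := by
  unfold phi T
  rw [AddMonoidAlgebra.coeff_single]
  rw [Finsupp.sum_single_index] <;> simp

/-- The triple `(c, f, n)`. -/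
@[ext] structure H (α : ℤ → ℤ) where
  c : ℤ
  f : ℤ[T;T⁻¹]
  n : ℤ

namespace H

variable {α : ℤ → ℤ}

noncomputable instance : Mul (H α) :=
  ⟨fun a b => ⟨a.c + b.c + phi α (invert a.f * (T a.n * b.f)), a.f + T a.n * b.f, a.n + b.n⟩⟩

noncomputable instance : One (H α) := ⟨⟨0, 0, 0⟩⟩

noncomputable instance : Inv (H α) :=
  ⟨fun a => ⟨-a.c + phi α (invert a.f * a.f), -(T (-a.n) * a.f), -a.n⟩⟩

@[simp] theorem mul_c (a b : H α) :
    (a * b).c = a.c + b.c + phi α (invert a.f * (T a.n * b.f)) := rfl
@[simp] theorem mul_f (a b : H α) : (a * b).f = a.f + T a.n * b.f := rfl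
@[simp] theorem mul_n (a b : H α) : (a * b).n = a.n + b.n := rfl
@[simp] theorem one_c : (1 : H α).c = 0 := rfl
@[simp] theorem one_f : (1 : H α).f = 0 := rfl
@[simp] theorem one_n : (1 : H α).n = 0 := rfl
@[simp] theorem inv_c (a : H α) : (a⁻¹).c = -a.c + phi α (invert a.f * a.f) := rfl
@[simp] theorem inv_f (a : H α) : (a⁻¹).f = -(T (-a.n) * a.f) := rfl
@[simp] theorem inv_n (a : H α) : (a⁻¹).n = -a.n := rfl

theorem T_cancel (n : ℤ) (g : ℤ[T;T⁻¹]) : T (-n) * (T n * g) = g := by
  rw [← mul_assoc, ← T_add, neg_add_cancel, T_zero, one_mul]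

theorem T_cancel' (n : ℤ) (g : ℤ[T;T⁻¹]) : T n * (T (-n) * g) = g := by
  rw [← mul_assoc, ← T_add, add_neg_cancel, T_zero, one_mul]

noncomputable instance : Group (H α) where
  mul_assoc a b c := by
    ext1
    · simp only [mul_c, mul_f, mul_n]
      have e1 : invert (a.f + T a.n * b.f) * (T (a.n + b.n) * c.f)
          = invert a.f * (T a.n * (T b.n * c.f)) + invert b.f * (T b.n * c.f) := by
        rw [map_add, map_mul, invert_T, add_mul, T_add]
        have e2 : T (-a.n) * invert b.f * (T a.n * T b.n * c.f)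
            = invert b.f * (T (-a.n) * (T a.n * (T b.n * c.f))) := by ring
        rw [e2, T_cancel]
        ring
      rw [e1, phi_add, mul_add, mul_add, phi_add]
      ring
    · simp only [mul_f, mul_n, T_add]
      ring
    · simp only [mul_n]; ring
  one_mul a := by
    ext1
    · simp [phi_zero]
    · simp
    · simp
  mul_one a := by
    ext1
    · simp [phi_zero]
    · simp
    · simp
  inv_mul_cancel a := by
    ext1
    · simp only [mul_c, inv_c, inv_f, inv_n, one_c]
      have e1 : invert (-(T (-a.n) * a.f)) * (T (-a.n) * a.f) = -(invert a.f * a.f) := by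
        rw [map_neg, map_mul, invert_T, neg_neg]
        have e2 : -(T a.n * invert a.f) * (T (-a.n) * a.f)
            = -(invert a.f * (T a.n * (T (-a.n) * a.f))) := by ring
        rw [e2, T_cancel']
      rw [e1, phi_neg]
      ring
    · simp only [mul_f, inv_f, inv_n, one_f]
      ring
    · simp

/-- The element `(0, 1, 0)`. -/
noncomputable def x : H α := ⟨0, 1, 0⟩
/-- The element `(0, 0, 1)`. -/
noncomputable def t : H α := ⟨0, 0, 1⟩

theorem t_pow (k : ℕ) : (t : H α) ^ k = ⟨0, 0, k⟩ := by
  induction k with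
  | zero => rfl
  | succ k ih =>
    rw [pow_succ, ih]
    ext1
    · simp [t, phi_zero]
    · simp [t]
    · simp [t]

theorem t_pow_inv (k : ℕ) : ((t : H α) ^ k)⁻¹ = ⟨0, 0, -k⟩ := by
  rw [t_pow]
  ext1
  · simp [phi_zero]
  · simp
  · simp

theorem conj_x (k : ℕ) : (t : H α) ^ k * x * (t ^ k)⁻¹ = ⟨0, T k, 0⟩ := by
  rw [t_pow_inv, t_pow]
  ext1
  · simp [x, phi_zero]
  · simp [x]
  · simp [x]

theorem comm_iff (k : ℕ) :
    ((x : H α) * (t ^ k * x * (t ^ k)⁻¹) = t ^ k * x * (t ^ k)⁻¹ * x) ↔ α k = α (-k) := by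
  rw [conj_x]
  have h1 : ((x : H α) * ⟨0, T k, 0⟩).c = α k := by simp [x, phi_T]
  have h2 : ((⟨0, T k, 0⟩ : H α) * x).c = α (-k) := by simp [x, phi_T]
  constructor
  · intro h
    rw [← h1, ← h2, h]
  · intro h
    ext1
    · rw [h1, h2, h]
    · simp [x, add_comm]
    · simp [x]

/-- The sign of a Laurent polynomial: the coefficient of the lowest term is positive. -/
def Pos (f : ℤ[T;T⁻¹]) : Prop := ∃ i, 0 < f.coeff i ∧ ∀ j < i, f.coeff j = 0

theorem Pos.add {f g : ℤ[T;T⁻¹]} (hf : Pos f) (hg : Pos g) : Pos (f + g) := by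
  obtain ⟨i, hi, hi'⟩ := hf
  obtain ⟨j, hj, hj'⟩ := hg
  rcases lt_trichotomy i j with h | h | h
  · refine ⟨i, ?_, fun k hk => ?_⟩
    · rw [AddMonoidAlgebra.coeff_add, Finsupp.add_apply, hj' i h, add_zero]
      exact hi
    · rw [AddMonoidAlgebra.coeff_add, Finsupp.add_apply, hi' k hk, hj' k (hk.trans h), add_zero]
  · subst h
    refine ⟨i, ?_, fun k hk => ?_⟩
    · rw [AddMonoidAlgebra.coeff_add, Finsupp.add_apply]
      omega
    · rw [AddMonoidAlgebra.coeff_add, Finsupp.add_apply, hi' k hk, hj' k hk, add_zero]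
  · refine ⟨j, ?_, fun k hk => ?_⟩
    · rw [AddMonoidAlgebra.coeff_add, Finsupp.add_apply, hi' j h, zero_add]
      exact hj
    · rw [AddMonoidAlgebra.coeff_add, Finsupp.add_apply, hi' k (hk.trans h), hj' k hk, add_zero]

theorem Pos.ne {f : ℤ[T;T⁻¹]} (hf : Pos f) : f ≠ 0 := by
  rintro rfl
  obtain ⟨i, hi, -⟩ := hf
  simp at hi

theorem Pos.tri (f : ℤ[T;T⁻¹]) : f = 0 ∨ Pos f ∨ Pos (-f) := by
  by_cases hf : f = 0
  · exact Or.inl hf
  right
  have hs : f.coeff.support.Nonempty := by
    rw [Finsupp.support_nonempty_iff]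
    intro h
    apply hf
    ext a
    rw [h]
    simp
  have h1 := Finset.min'_mem _ hs
  rw [Finsupp.mem_support_iff] at h1
  have h2 : ∀ j < f.coeff.support.min' hs, f.coeff j = 0 := by
    intro j hj
    by_contra h
    exact absurd (Finset.min'_le _ j (Finsupp.mem_support_iff.2 h)) (not_le.2 hj)
  rcases lt_or_gt_of_ne h1 with h | h
  · right
    refine ⟨f.coeff.support.min' hs, ?_, fun j hj => ?_⟩
    · rw [AddMonoidAlgebra.coeff_neg, Finsupp.neg_apply]
      omega
    · rw [AddMonoidAlgebra.coeff_neg, Finsupp.neg_apply, h2 j hj, neg_zero]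
  · exact Or.inl ⟨_, h, h2⟩

theorem Pos.asymm {f : ℤ[T;T⁻¹]} (hf : Pos f) : ¬ Pos (-f) := by
  intro h
  have := hf.add h
  rw [add_neg_cancel] at this
  exact this.ne rfl

theorem coeff_T_mul (n : ℤ) (f : ℤ[T;T⁻¹]) (i : ℤ) : (T n * f).coeff i = f.coeff (i - n) := by
  have h := AddMonoidAlgebra.coeff_single_mul_add f (1 : ℤ) n (i - n)
  rw [add_sub_cancel, one_mul] at h
  exact h

theorem Pos.shift {f : ℤ[T;T⁻¹]} (hf : Pos f) (n : ℤ) : Pos (T n * f) := by
  obtain ⟨i, hi, hi'⟩ := hf
  refine ⟨i + n, ?_, fun j hj => ?_⟩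
  · rw [coeff_T_mul, add_sub_cancel_right]; exact hi
  · rw [coeff_T_mul]; exact hi' _ (by omega)

/-- The positive cone of the order of `H α`. -/
def Cone (a : H α) : Prop := 0 < a.n ∨ (a.n = 0 ∧ (Pos a.f ∨ (a.f = 0 ∧ 0 < a.c)))

theorem Cone.mul {a b : H α} (ha : Cone a) (hb : Cone b) : Cone (a * b) := by
  rcases ha with ha | ⟨ha, ha'⟩
  · rcases hb with hb | ⟨hb, hb'⟩
    · left; simp only [mul_n]; omega
    · left; simp only [mul_n]; omega
  · rcases hb with hb | ⟨hb, hb'⟩
    · left; simp only [mul_n]; omega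
    · right
      refine ⟨by simp only [mul_n]; omega, ?_⟩
      rcases ha' with ha' | ⟨ha', ha''⟩
      · rcases hb' with hb' | ⟨hb', hb''⟩
        · left
          simp only [mul_f, ha, T_zero, one_mul]
          exact ha'.add hb'
        · left
          simp only [mul_f, ha, T_zero, one_mul, hb', add_zero]
          exact ha'
      · rcases hb' with hb' | ⟨hb', hb''⟩
        · left
          simp only [mul_f, ha, T_zero, one_mul, ha', zero_add]
          exact hb'
        · right
          refine ⟨by simp only [mul_f, ha', hb', mul_zero, add_zero], ?_⟩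
          simp only [mul_c, ha', map_zero, zero_mul, phi_zero, add_zero]
          omega

theorem Cone.ne {a : H α} (ha : Cone a) : a ≠ 1 := by
  rintro rfl
  rcases ha with h | ⟨-, h | ⟨-, h⟩⟩
  · simp at h
  · exact h.ne rfl
  · simp at h

theorem Cone.tri (a : H α) : a = 1 ∨ Cone a ∨ Cone a⁻¹ := by
  rcases lt_trichotomy a.n 0 with h | h | h
  · right; right; left; simp only [inv_n]; omega
  · rcases Pos.tri a.f with h1 | h1 | h1
    · rcases lt_trichotomy a.c 0 with h2 | h2 | h2
      · right; right; right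
        refine ⟨by simp only [inv_n]; omega, Or.inr ⟨by simp [h1], ?_⟩⟩
        simp only [inv_c, h1, mul_zero, phi_zero]
        omega
      · left
        ext1
        · exact h2
        · exact h1
        · exact h
      · right; left; right
        exact ⟨h, Or.inr ⟨h1, h2⟩⟩
    · right; left; right
      exact ⟨h, Or.inl h1⟩
    · right; right; right
      refine ⟨by simp only [inv_n]; omega, Or.inl ?_⟩
      simp only [inv_f, h, neg_zero, T_zero, one_mul]
      exact h1
  · right; left; left; exact h

theorem Cone.conj {a : H α} (ha : Cone a) (b : H α) : Cone (b * a * b⁻¹) := by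
  rcases ha with ha | ⟨ha, ha'⟩
  · left; simp only [mul_n, inv_n]; omega
  · right
    refine ⟨by simp only [mul_n, inv_n]; omega, ?_⟩
    have hf : (b * a * b⁻¹).f = T b.n * a.f := by
      simp only [mul_f, mul_n, inv_f, ha, add_zero]
      rw [mul_neg, T_cancel']
      ring
    rcases ha' with ha' | ⟨ha', ha''⟩
    · left
      rw [hf]
      exact ha'.shift _
    · right
      refine ⟨by rw [hf, ha', mul_zero], ?_⟩
      simp only [mul_c, mul_f, mul_n, inv_c, inv_f, ha, ha', mul_zero, add_zero, phi_zero]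
      rw [mul_neg, T_cancel', mul_neg, phi_neg]
      omega

theorem orderable : Orderable (H α) := by
  refine ⟨fun a b => a = b ∨ Cone (b * a⁻¹), ⟨fun a => Or.inl rfl, ?_, ?_, ?_, ?_⟩, ?_⟩
  · rintro a b c (rfl | h1) (rfl | h2)
    · exact Or.inl rfl
    · exact Or.inr h2
    · exact Or.inr h1
    · right
      have := h2.mul h1
      have e : c * b⁻¹ * (b * a⁻¹) = c * a⁻¹ := by group
      rwa [e] at this
  · rintro a b (rfl | h1) (h | h2)
    · rfl
    · rfl
    · exact h.symm
    · exfalso
      have := h1.mul h2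
      have e : b * a⁻¹ * (a * b⁻¹) = 1 := by group
      rw [e] at this
      exact this.ne rfl
  · intro a b
    rcases Cone.tri (b * a⁻¹) with h | h | h
    · left; left
      exact (mul_inv_eq_one.1 h).symm
    · left; right; exact h
    · right; right
      have e : (b * a⁻¹)⁻¹ = a * b⁻¹ := by group
      rwa [e] at h
  · rintro a b c (rfl | h)
    · exact Or.inl rfl
    · right
      have e : b * c * (a * c)⁻¹ = b * a⁻¹ := by group
      rwa [e]
  · rintro a b c (rfl | h)
    · exact Or.inl rfl
    · right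
      have e : c * b * (c * a)⁻¹ = c * (b * a⁻¹) * c⁻¹ := by group
      rw [e]
      exact h.conj c

instance : Countable (H α) := by
  have hinj : Function.Injective (fun a : H α => (a.c, a.f.coeff, a.n)) := by
    intro a b h
    simp only [Prod.mk.injEq] at h
    ext1
    · exact h.1
    · ext i
      rw [h.2.1]
    · exact h.2.2
  exact hinj.countable

end H

theorem Orderable.subgroup {G : Type u} [Group G] (h : Orderable G) (K : Subgroup G) :
    Orderable K := by
  obtain ⟨r, ⟨h1, h2, h3, h4, h5⟩, h6⟩ := h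
  exact ⟨fun a b => r a b, ⟨fun a => h1 a, fun a b c => h2 a b c,
    fun a b h h' => Subtype.ext (h3 _ _ h h'), fun a b => h4 a b, fun a b c h => h5 _ _ _ h⟩,
    fun a b c h => h6 _ _ _ h⟩

/-- The coefficients belonging to a set of natural numbers. -/
noncomputable def al (S : Set ℕ) (i : ℤ) : ℤ := by
  classical exact if ∃ k ∈ S, i = k + 1 then 1 else 0

theorem al_pos {S : Set ℕ} (k : ℕ) : al S ((k + 1 : ℕ) : ℤ) = al S (-((k + 1 : ℕ) : ℤ)) ↔ k ∉ S := by
  classical
  have h1 : al S (-((k + 1 : ℕ) : ℤ)) = 0 := by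
    unfold al
    rw [if_neg]
    rintro ⟨m, -, hm⟩
    push_cast at hm
    omega
  rw [h1]
  unfold al
  constructor
  · intro h hk
    rw [if_pos ⟨k, hk, by push_cast; ring⟩] at h
    exact one_ne_zero h
  · intro hk
    rw [if_neg]
    rintro ⟨m, hm, hm'⟩
    apply hk
    have : k = m := by push_cast at hm'; omega
    rwa [this]

/-- The subgroup of `H` generated by `x` and `t`. -/
noncomputable abbrev G (S : Set ℕ) : Subgroup (H (al S)) := Subgroup.closure {H.x, H.t}

theorem mem_x (S : Set ℕ) : (H.x : H (al S)) ∈ G S := Subgroup.subset_closure (Or.inl rfl)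
theorem mem_t (S : Set ℕ) : (H.t : H (al S)) ∈ G S := Subgroup.subset_closure (Or.inr rfl)

theorem comm_iff (S : Set ℕ) (k : ℕ) {U : Type u} [Group U] (f : G S →* U)
    (hf : Function.Injective f) :
    (f ⟨H.x, mem_x S⟩ * (f ⟨H.t, mem_t S⟩ ^ (k + 1) * f ⟨H.x, mem_x S⟩ *
      (f ⟨H.t, mem_t S⟩ ^ (k + 1))⁻¹) = f ⟨H.t, mem_t S⟩ ^ (k + 1) * f ⟨H.x, mem_x S⟩ *
      (f ⟨H.t, mem_t S⟩ ^ (k + 1))⁻¹ * f ⟨H.x, mem_x S⟩) ↔ k ∉ S := by
  rw [← map_pow, ← map_inv, ← map_mul, ← map_mul, ← map_mul, ← map_mul, hf.eq_iff,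
    Subtype.ext_iff]
  simp only [Subgroup.coe_mul, Subgroup.coe_inv, Subgroup.coe_pow]
  rw [H.comm_iff, al_pos]

/-- For every countable group `U` there is a group `G` which is generated by two elements, is
orderable (by a total order invariant under left and right multiplication) and does not embed
in `U`. -/
theorem exists_not_embed (U : Type u) [Group U] [Countable U] :
    ∃ (G : Type) (_ : Group G), Countable G ∧ (∃ a b : G, Subgroup.closure {a, b} = ⊤) ∧
      Orderable G ∧ ¬ ∃ f : G →* U, Function.Injective f := by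
  by_contra hcon
  push Not at hcon
  have key : ∀ S : Set ℕ, ∃ f : G S →* U, Function.Injective f := by
    intro S
    refine hcon (G S) inferInstance inferInstance ⟨⟨H.x, mem_x S⟩, ⟨H.t, mem_t S⟩, ?_⟩
      (H.orderable.subgroup _)
    have h := Subgroup.closure_closure_coe_preimage (k := ({H.x, H.t} : Set (H (al S))))
    rw [← h]
    congr 1
    ext a
    simp [Subtype.ext_iff]
  choose f hf using key
  obtain ⟨e, he⟩ := exists_injective_nat (U × U)
  refine Function.cantor_injective
    (fun S : Set ℕ => e (f S ⟨H.x, mem_x S⟩, f S ⟨H.t, mem_t S⟩)) ?_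
  intro S S' h
  have h1 := he h
  rw [Prod.mk.injEq] at h1
  ext k
  have h2 := comm_iff S k (f S) (hf S)
  have h3 := comm_iff S' k (f S') (hf S')
  rw [h1.1, h1.2] at h2
  rw [h2] at h3
  exact not_iff_not.1 h3

/-- **There is no universal countable right-orderable group.** Moreover, for every countable group
`U` there is a two-generator group with a two-sided order that does not embed in `U`. -/
theorem result :
    (¬ ∃ (U : Type u) (_ : Group U), Countable U ∧ RightOrderable U ∧
      ∀ (G : Type) [Group G], Countable G → RightOrderable G →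
        ∃ f : G →* U, Function.Injective f) ∧
    ∀ (U : Type u) [Group U] [Countable U],
      ∃ (G : Type) (_ : Group G), Countable G ∧ (∃ a b : G, Subgroup.closure {a, b} = ⊤) ∧
        Orderable G ∧ ¬ ∃ f : G →* U, Function.Injective f := by
  refine ⟨?_, fun U _ _ => exists_not_embed U⟩
  rintro ⟨U, _, hU, -, h⟩
  obtain ⟨G, _, hc, -, hG, hno⟩ := exists_not_embed U
  exact hno (h G hc hG.rightOrderable)

end Pool.Agent.Results.MP_49314d_al.NoUniversalGroup
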